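import Mathlib
import Pool.Agent.X218.NF.Add

/-!
# MP_ea2cf4_gt, Q1 (negated form)

There is a closed Haar-null set in a (compact) Polish abelian group which is not covered by
countably many Borel null-finite sets.
-/

open Set Filter Topology MeasureTheory

namespace Pool.Agent.Results.MP_ea2cf4_gt.ClosedHaarNull

/-- `A` is null-finite: for some sequence `x_n → 0` every `x` has only finitely many `n` with
`x + x_n ∈ A`. -/
def NullFinite {X : Type} [AddCommGroup X] [TopologicalSpace X] (A : Set X) : Prop :=
  ∃ a : ℕ → X, Tendsto a atTop (𝓝 0) ∧ ∀ x : X, {n : ℕ | x + a n ∈ A}.Finite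

/-- `B` is Haar-null (Christensen): some Borel probability measure vanishes on all translates
of `B`. -/
def HaarNull {X : Type} [AddCommGroup X] [MeasurableSpace X] (B : Set X) : Prop :=
  ∃ μ : Measure X, IsProbabilityMeasure μ ∧ ∀ x : X, μ ((fun b => b + x) '' B) = 0

/-- `S` belongs to the σ-ideal generated by the Borel null-finite sets. -/
def SigmaNF {X : Type} [AddCommGroup X] [TopologicalSpace X] [MeasurableSpace X] (S : Set X) :
    Prop :=
  ∃ B : ℕ → Set X, (∀ k, MeasurableSet (B k) ∧ NullFinite (B k)) ∧ S ⊆ ⋃ k, B k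

/-- **MP_ea2cf4_gt, Q1 (negated form).** There are an abelian Polish group `X` and a closed
Haar-null set `F ⊆ X` which is not covered by countably many Borel null-finite sets. -/
theorem result : ∃ (X : Type) (_ : AddCommGroup X) (_ : TopologicalSpace X)
    (_ : IsTopologicalAddGroup X) (_ : PolishSpace X) (_ : MeasurableSpace X) (_ : BorelSpace X)
    (F : Set X), IsClosed F ∧ HaarNull F ∧ ¬ SigmaNF F := by
  refine ⟨Pool.Agent.X218.NF.Z, inferInstance, inferInstance, inferInstance, inferInstance,
    inferInstance, inferInstance, Pool.Agent.X218.NF.dif 0,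
    Pool.Agent.X218.NF.isClosed_dif 0, ?_, ?_⟩
  · obtain ⟨μ, hμ, h0⟩ := Pool.Agent.X218.NF.exists_measure
    refine ⟨μ, hμ, fun x => measure_mono_null ?_ (h0 x)⟩
    rintro _ ⟨y, hy, rfl⟩ n h
    refine hy n ?_
    have h1 : y n + x n = x n := h
    show y n = 0
    simpa using h1
  · rintro ⟨B, hB, hcov⟩
    exact Pool.Agent.X218.NF.no_cover_Z B (fun k => (hB k).1) (fun k => (hB k).2) hcov

end Pool.Agent.Results.MP_ea2cf4_gt.ClosedHaarNull
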